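import Pool.Agent.H937.QS.Stm

/-!
Project QS, task T: the alternants of a tuple of elements with coordinates in a subring.
-/

set_option autoImplicit false

open scoped Matrix TensorProduct
open Pool.Agent.H937.QS
universe u
namespace Pool.Agent.H788.QS.T

theorem pL_map {R S : Type u} [CommRing R] [CommRing S] (f : R →+* S)
    (s : Fin 3 → Fin 3 → Fin 4 → R) (X : Fin 15) :
    pL (fun i j m => f (s i j m)) X = f (pL s X) := by
  have hf : f 2 = 2 := map_ofNat f 2
  fin_cases X <;> simp [pL, hf]

theorem pL_mem {L : Type u} [Field L] (C : Subring L) (s : Fin 3 → Fin 3 → Fin 4 → L)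
    (hs : ∀ i j m, s i j m ∈ C) (X : Fin 15) : pL s X ∈ C := by
  have h := pL_map C.subtype (fun i j m => (⟨s i j m, hs i j m⟩ : C)) X
  have h2 : pL s X = C.subtype (pL (fun i j m => (⟨s i j m, hs i j m⟩ : C)) X) := h
  rw [h2]
  exact (pL (fun i j m => (⟨s i j m, hs i j m⟩ : C)) X).2

theorem det_mem {L : Type u} [Field L] (C : Subring L) (A : Matrix (Fin 4) (Fin 4) L)
    (hA : ∀ i j, A i j ∈ C) : A.det ∈ C := by
  have h : A = C.subtype.mapMatrix (Matrix.of fun i j => (⟨A i j, hA i j⟩ : C)) := by
    ext i j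
    rfl
  rw [h, ← RingHom.map_det]
  exact (Matrix.det (Matrix.of fun i j => (⟨A i j, hA i j⟩ : C))).2

theorem det_upd {L : Type u} [Field L] (M : Matrix (Fin 4) (Fin 4) L) (m i : Fin 4) :
    (M.updateCol m fun q => M q i).det = if m = i then M.det else 0 := by
  split_ifs with h
  · subst h
    rw [Matrix.updateCol_eq_self]
  · refine Matrix.det_zero_of_column_eq (i := m) (j := i) h fun q => ?_
    rw [Matrix.updateCol_self, Matrix.updateCol_ne (Ne.symm h)]

theorem det_cramer {L : Type u} [Field L] (N G : Matrix (Fin 4) (Fin 4) L) (m : Fin 4)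
    (v : Fin 4 → L) : ((N * G).updateCol m (N *ᵥ v)).det = N.det * (G.updateCol m v).det := by
  rw [← Matrix.det_mul]
  congr 1
  ext q l
  by_cases h : l = m
  · subst h
    rw [Matrix.updateCol_self, Matrix.mul_apply]
    show ∑ i, N q i * v i = _
    refine Finset.sum_congr rfl fun i _ => ?_
    rw [Matrix.updateCol_self]
  · rw [Matrix.updateCol_ne h, Matrix.mul_apply, Matrix.mul_apply]
    refine Finset.sum_congr rfl fun i _ => ?_
    rw [Matrix.updateCol_ne h]

theorem t_T (hP : S_P.{u}) : S_T.{u} := by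
  intro L _ C N hN0 hdet τ hτ G hG hG0 X
  have hcol : ∀ l, (fun q => (N * G) q l) = N *ᵥ (fun i => G i l) := by
    intro l
    ext q
    rfl
  have hM0 : ∀ q, (N * G) q 0 = 1 := by
    intro q
    rw [Matrix.mul_apply, Finset.sum_eq_single 0]
    · rw [hG0, hN0]
      simp
    · intro i _ hi
      rw [hG0, if_neg hi, mul_zero]
    · intro h
      exact absurd (Finset.mem_univ _) h
  have key : ∀ i j : Fin 3, ∃ (α : L) (w : Fin 3 → L), (∀ r, w r ∈ C) ∧ ∀ q,
      (N * G) q i.succ * (N * G) q j.succ =
        α + nn (tL (sc N)) (fun k => G k j.succ) * (N * G) q i.succ +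
          nn (tL (sc N)) (fun k => G k i.succ) * (N * G) q j.succ +
          τ * ∑ r : Fin 3, w r * N q r.succ := fun i j =>
    hP L C N hN0 hdet τ hτ (fun k => G k i.succ) (fun k => G k j.succ) (fun k => hG k _)
      (fun k => hG k _)
  choose α w hw hprod using key
  generalize hn : (fun i : Fin 3 => nn (tL (sc N)) (fun k => G k i.succ)) = n at *
  have hn' : ∀ i : Fin 3, nn (tL (sc N)) (fun k => G k i.succ) = n i := fun i => by rw [← hn]
  let v : Fin 3 → Fin 3 → Fin 4 → L := fun i j => Fin.cons 0 (w i j)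
  have hv : ∀ i j q, (N *ᵥ v i j) q = ∑ r : Fin 3, w i j r * N q r.succ := by
    intro i j q
    show ∑ k, N q k * v i j k = _
    rw [Fin.sum_univ_succ]
    show N q 0 * 0 + ∑ k : Fin 3, N q k.succ * w i j k = _
    rw [mul_zero, zero_add]
    exact Finset.sum_congr rfl fun r _ => mul_comm _ _
  have hcolumn : ∀ i j : Fin 3, (fun q => (N * G) q i.succ * (N * G) q j.succ) =
      (α i j • (fun q => (N * G) q 0) + n j • (fun q => (N * G) q i.succ) +
        n i • (fun q => (N * G) q j.succ)) + τ • (N *ᵥ v i j) := by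
    intro i j
    ext q
    rw [hprod i j q, hn', hn']
    simp only [Pi.add_apply, Pi.smul_apply, smul_eq_mul, hM0, hv]
    ring
  have hd : ∀ (i j : Fin 3) (m : Fin 4), m ≠ 0 → dsc (N * G) i j m =
      n j * (if m = i.succ then (N * G).det else 0) +
        n i * (if m = j.succ then (N * G).det else 0) +
        τ * (N.det * (G.updateCol m (v i j)).det) := by
    intro i j m hm
    unfold dsc
    rw [hcolumn i j, Matrix.det_updateCol_add, Matrix.det_updateCol_add, Matrix.det_updateCol_add,
      Matrix.det_updateCol_smul, Matrix.det_updateCol_smul, Matrix.det_updateCol_smul,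
      Matrix.det_updateCol_smul, det_upd, det_upd, det_upd, det_cramer, if_neg hm, mul_zero,
      zero_add]
  refine ⟨pL (fun i j m => (G.updateCol m (v i j)).det) X, pL_mem C _ (fun i j m => ?_) X, ?_⟩
  · refine det_mem C _ fun k l => ?_
    by_cases h : l = m
    · subst h
      rw [Matrix.updateCol_self]
      refine Fin.cases ?_ (fun r => ?_) k
      · exact C.zero_mem
      · exact hw i j r
    · rw [Matrix.updateCol_ne h]
      exact hG k l
  · have h1 : ∀ i j : Fin 3, dsc (N * G) i j 1 = _ := fun i j => hd i j 1 (by decide)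
    have h2 : ∀ i j : Fin 3, dsc (N * G) i j 2 = _ := fun i j => hd i j 2 (by decide)
    have h3 : ∀ i j : Fin 3, dsc (N * G) i j 3 = _ := fun i j => hd i j 3 (by decide)
    unfold Lam
    fin_cases X <;> simp [pL, h1, h2, h3] <;> ring

end Pool.Agent.H788.QS.T
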